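import Mathlib
import Pool.Agent.Helper851.R14

set_option autoImplicit false

/-! A soluble local hereditary formation that is not a Fitting class although every soluble
minimal non-`F`-group `G` is a minimal non-`N^(l(G)-1)`-group. -/

namespace Pool.Agent.Results.MP_99d208_al.Disproof

open Subgroup

/-- A class of groups. -/
abbrev GroupClass : Type 1 := (G : Type) → [Group G] → Prop

/-- A formation: a nonempty class of finite groups closed under isomorphic images and quotients,
and containing `G / (M ∩ N)` whenever it contains `G / M` and `G / N`. -/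
structure IsFormation (F : GroupClass) : Prop where
  finite : ∀ (G : Type) [Group G], F G → Finite G
  nonempty : ∃ (G : Type) (_ : Group G), F G
  iso : ∀ (G H : Type) [Group G] [Group H], Nonempty (G ≃* H) → F G → F H
  quotient : ∀ (G : Type) [Group G] (N : Subgroup G) [N.Normal], F G → F (G ⧸ N)
  subdirect : ∀ (G : Type) [Group G] [Finite G] (M N : Subgroup G) [M.Normal] [N.Normal],
    F (G ⧸ M) → F (G ⧸ N) → F (G ⧸ (M ⊓ N))

/-- All groups of the class are soluble. -/
def IsSolubleClass (F : GroupClass) : Prop :=
  ∀ (G : Type) [Group G], F G → Group.IsSolvable G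

/-- The class is closed under taking subgroups. -/
def IsHereditary (F : GroupClass) : Prop :=
  ∀ (G : Type) [Group G] (H : Subgroup G), F G → F ↥H

/-- `H / K` is a chief factor of `G`. -/
structure IsChiefFactor {G : Type} [Group G] (H K : Subgroup G) : Prop where
  top_normal : H.Normal
  bot_normal : K.Normal
  lt : K < H
  minimal : ∀ L : Subgroup G, L.Normal → K ≤ L → L ≤ H → L = K ∨ L = H

/-- The centraliser `C_G(H / K)`: the elements of `G` whose image in `G / K` centralises
the image of `H`. -/
def factorCentralizer {G : Type} [Group G] (H K : Subgroup G) [K.Normal] : Subgroup G :=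
  (centralizer ((H.map (QuotientGroup.mk' K) : Subgroup (G ⧸ K)) : Set (G ⧸ K))).comap
    (QuotientGroup.mk' K)

instance factorCentralizer_normal {G : Type} [Group G] (H K : Subgroup G) [H.Normal]
    [K.Normal] : (factorCentralizer H K).Normal := by
  have h1 : (H.map (QuotientGroup.mk' K)).Normal :=
    Subgroup.Normal.map inferInstance _ (QuotientGroup.mk'_surjective K)
  unfold factorCentralizer
  infer_instance

/-- The class is local: there is a function `f` assigning to each prime a formation, possibly
empty, such that `G` is in the class if and only if `G / C_G(H / K)` is in `f p` for every chief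
factor `H / K` of `G` and every prime `p` dividing its order. -/
def IsLocal (F : GroupClass) : Prop :=
  ∃ f : ℕ → GroupClass,
    (∀ p : ℕ, p.Prime → IsFormation (f p) ∨ ∀ (G : Type) [Group G], ¬ f p G) ∧
    ∀ (G : Type) [Group G] [Finite G], F G ↔
      ∀ (H K : Subgroup G) [H.Normal] [K.Normal], IsChiefFactor H K → ∀ p : ℕ, p.Prime →
        p ∣ Nat.card (↥H ⧸ K.subgroupOf H) → f p (G ⧸ factorCentralizer H K)

/-- The class is a Fitting class: closed under normal subgroups, and under products of two
normal subgroups. -/
def IsRadical (F : GroupClass) : Prop :=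
  (∀ (G : Type) [Group G] (N : Subgroup G) [N.Normal], F G → F ↥N) ∧
  ∀ (G : Type) [Group G] [Finite G] (M N : Subgroup G) [M.Normal] [N.Normal],
    F ↥M → F ↥N → F ↥(M ⊔ N)

/-- `G` is a minimal non-`X`-group. -/
def IsMinimalNon (X : GroupClass) (G : Type) [Group G] : Prop :=
  ¬ X G ∧ ∀ H : Subgroup G, H ≠ ⊤ → X ↥H

/-- The class `N^k` of finite groups of nilpotent length at most `k`: finite groups with a series
`1 = s 0 ≤ s 1 ≤ ... ≤ s k = G` of normal subgroups with nilpotent factors. -/
def NPow (k : ℕ) (G : Type) [Group G] : Prop :=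
  Finite G ∧ ∃ (s : ℕ → Subgroup G) (_ : ∀ i, (s i).Normal), s 0 = ⊥ ∧ s k = ⊤ ∧
    ∀ i < k, s i ≤ s (i + 1) ∧ Group.IsNilpotent (↥(s (i + 1)) ⧸ (s i).subgroupOf (s (i + 1)))

/-- The nilpotent length of `G`. -/
noncomputable def nilpotentLength (G : Type) [Group G] : ℕ := sInf {k | NPow k G}

open Pool.Agent.Helper851.R

theorem npow_iff (k : ℕ) (G : Type) [Group G] [Finite G] : NPow k G ↔ Chain k G := by
  constructor
  · rintro ⟨-, s, hs, h0, hk, h⟩
    refine ⟨s, h0, hk, hs, fun i hi => ⟨(h i hi).1, ?_⟩⟩
    have := hs i
    exact (nil_quot_iff (s (i + 1)) (s i)).mp (h i hi).2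
  · rintro ⟨s, h0, hk, hs, h⟩
    refine ⟨inferInstance, s, hs, h0, hk, fun i hi => ⟨(h i hi).1, ?_⟩⟩
    have := hs i
    exact (nil_quot_iff (s (i + 1)) (s i)).mpr (h i hi).2

/-- The nilpotent length of a finite soluble group is attained. -/
theorem npow_nilpotentLength (G : Type) [Group G] [Finite G] [Group.IsSolvable G] :
    NPow (nilpotentLength G) G := by
  obtain ⟨k, hk⟩ := chain_of_solvable (X := G)
  exact Nat.sInf_mem (s := {k | NPow k G}) ⟨k, (npow_iff k G).mpr hk⟩

theorem isFormation_clsOf {D : (G : Type) → [Group G] → Subgroup G → Prop} (hD : Good D) :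
    IsFormation (fun G _ => ClsOf D G) where
  finite := fun _ _ h => h.1
  nonempty := ⟨Unit, inferInstance, ClsOf.bot⟩
  iso := by
    rintro G H _ _ ⟨e⟩ h
    exact h.surj hD e.toMonoidHom e.surjective
  quotient := by
    intro G _ N _ h
    exact h.surj hD (QuotientGroup.mk' N) (QuotientGroup.mk'_surjective N)
  subdirect := by
    intro G _ _ M N _ _ hM hN
    exact ClsOf.inter hD M N hM hN

theorem isLocal_main : IsLocal (fun G _ => ClsOf DF G) := by
  refine ⟨fun p G _ => fval p G, ?_, ?_⟩
  · intro p _
    left
    by_cases h2 : p = 2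
    · have : (fun (G : Type) [Group G] => fval p G) = (fun (G : Type) [Group G] => ClsOf DX G) := by
        funext G _
        exact if_pos h2
      change IsFormation (fun (G : Type) [Group G] => fval p G)
      rw [this]
      exact isFormation_clsOf good_DX
    · have : (fun (G : Type) [Group G] => fval p G) = (fun (G : Type) [Group G] => ClsOf DN G) := by
        funext G _
        exact if_neg h2
      change IsFormation (fun (G : Type) [Group G] => fval p G)
      rw [this]
      exact isFormation_clsOf good_DN
  · intro G _ _
    constructor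
    · intro h H K _ _ hch p hp hpd
      exact local_forward h H K hch.lt hch.minimal p hp hpd
    · intro h
      apply local_backward
      intro H K hH hK hlt hch p hp hpd
      exact h H K ⟨hH, hK, hlt, hch⟩ p hp hpd

/-- There is a soluble local hereditary formation `F` that is not a Fitting class although every
soluble minimal non-`F`-group `G` is a minimal non-`N^(l(G)-1)`-group. -/
theorem result : ∃ F : GroupClass, IsFormation F ∧ IsSolubleClass F ∧ IsHereditary F ∧
    IsLocal F ∧
    (∀ (G : Type) [Group G] [Finite G], Group.IsSolvable G → IsMinimalNon F G →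
      IsMinimalNon (NPow (nilpotentLength G - 1)) G) ∧
    ¬ IsRadical F := by
  refine ⟨fun G _ => ClsOf DF G, isFormation_clsOf good_DF, fun _ _ h => h.2.1, ?_,
    isLocal_main, ?_, ?_⟩
  · intro G _ H h
    exact ClsOf.inj good_DF H.subtype H.subtype_injective h
  · rintro G _ _ hsol ⟨hnF, hprop⟩
    have h3 : ¬ Chain 3 G := by
      intro h
      apply hnF
      refine ⟨inferInstance, inferInstance, ?_⟩
      rintro _ ⟨P, Q, R, y, hc, rfl⟩
      exact chain3_test h P Q R y hc
    have hl : NPow (nilpotentLength G) G := npow_nilpotentLength G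
    have h4 : 4 ≤ nilpotentLength G := by
      by_contra hlt
      apply h3
      rw [npow_iff] at hl
      exact hl.mono (by omega)
    constructor
    · intro h
      have h5 : nilpotentLength G ≤ nilpotentLength G - 1 := Nat.sInf_le h
      omega
    · intro H hH
      rw [npow_iff]
      exact (min_main hnF hprop H hH).mono (by omega)
  · rintro ⟨-, h⟩
    obtain ⟨G, _, _, A, B, _, _, hA, hB, hAB⟩ := not_product
    exact hAB (h G A B hA hB)

end Pool.Agent.Results.MP_99d208_al.Disproof
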